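import Pool.Agent.K3h46.AS.Stm

/-! AS project (helper46): brick EUL. -/

set_option autoImplicit false

namespace Pool.Agent.K3h60.AS

open Pool.Agent.K3h46.AS

section

variable {F : Type} [Field F]

theorem dehom_pderiv_one (h : MvPolynomial (Fin 2) F) :
    dehom (MvPolynomial.pderiv 1 h) = Polynomial.derivative (dehom h) := by
  induction h using MvPolynomial.induction_on with
  | C a => simp [dehom]
  | add p q hp hq => simp only [map_add, hp, hq]
  | mul_X p i hp =>
    have h1 : dehom (F := F) (MvPolynomial.X 0) = 1 := by simp [dehom]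
    have h2 : dehom (F := F) (MvPolynomial.X 1) = Polynomial.X := by simp [dehom]
    rw [Derivation.leibniz, map_add, smul_eq_mul, smul_eq_mul, map_mul, map_mul, map_mul, hp,
      Polynomial.derivative_mul]
    fin_cases i
    · simp only [Fin.zero_eta, h1]
      rw [MvPolynomial.pderiv_X_of_ne (by decide)]
      simp
    · simp only [Fin.mk_one, h2]
      rw [MvPolynomial.pderiv_X_self]
      simp
      ring

theorem dehom_eq (h : MvPolynomial (Fin 2) F) :
    dehom h = ∑ s ∈ h.support, Polynomial.C (h.coeff s) * Polynomial.X ^ (s 1) := by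
  unfold dehom
  rw [MvPolynomial.coe_eval₂Hom, MvPolynomial.eval₂_eq']
  refine Finset.sum_congr rfl fun s _ => ?_
  rw [Fin.prod_univ_two]
  simp

theorem sum_of_hom {h : MvPolynomial (Fin 2) F} {n : ℕ} (hh : h.IsHomogeneous n)
    {s : Fin 2 →₀ ℕ} (hs : s ∈ h.support) : s 0 + s 1 = n := by
  have h1 := hh (MvPolynomial.mem_support_iff.1 hs)
  rw [Finsupp.weight_apply, Finsupp.sum_fintype _ _ (by simp)] at h1
  simpa [Fin.sum_univ_two] using h1

theorem coeff_dehom {h : MvPolynomial (Fin 2) F} {n : ℕ} (hh : h.IsHomogeneous n)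
    {s : Fin 2 →₀ ℕ} (hs : s ∈ h.support) : (dehom h).coeff (s 1) = h.coeff s := by
  rw [dehom_eq, Polynomial.finsetSum_coeff, Finset.sum_eq_single s]
  · simp
  · intro t ht hne
    rw [Polynomial.coeff_C_mul, Polynomial.coeff_X_pow, if_neg, mul_zero]
    intro h1
    apply hne
    have h2 := sum_of_hom hh hs
    have h3 := sum_of_hom hh ht
    ext i
    fin_cases i
    · simp only [Fin.zero_eta]
      omega
    · simp only [Fin.mk_one]
      omega
  · intro h1
    exact absurd hs h1

theorem degree_dehom {h : MvPolynomial (Fin 2) F} {n : ℕ} (hh : h.IsHomogeneous n) :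
    (dehom h).degree < ((n + 1 : ℕ) : WithBot ℕ) := by
  rw [Polynomial.degree_lt_iff_coeff_zero]
  intro m hm
  rw [dehom_eq, Polynomial.finsetSum_coeff]
  refine Finset.sum_eq_zero fun s hs => ?_
  have h2 := sum_of_hom hh hs
  rw [Polynomial.coeff_C_mul, Polynomial.coeff_X_pow, if_neg (by omega), mul_zero]

theorem eq_zero_of_dehom {h : MvPolynomial (Fin 2) F} {n : ℕ} (hh : h.IsHomogeneous n)
    (h0 : dehom h = 0) : h = 0 := by
  by_contra hne
  obtain ⟨s, hs⟩ := MvPolynomial.support_nonempty.2 hne
  have h1 := coeff_dehom hh hs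
  rw [h0, Polynomial.coeff_zero] at h1
  exact MvPolynomial.mem_support_iff.1 hs h1.symm

theorem dehom_pderiv_zero {h : MvPolynomial (Fin 2) F} {n : ℕ} (hh : h.IsHomogeneous n) :
    dehom (MvPolynomial.pderiv 0 h) =
      (n : Polynomial F) * dehom h - Polynomial.X * Polynomial.derivative (dehom h) := by
  have h1 := congrArg dehom hh.sum_X_mul_pderiv
  rw [Fin.sum_univ_two, map_add, map_mul, map_mul, dehom_pderiv_one, map_nsmul, nsmul_eq_mul] at h1
  have h2 : dehom (F := F) (MvPolynomial.X 0) = 1 := by simp [dehom]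
  have h3 : dehom (F := F) (MvPolynomial.X 1) = Polynomial.X := by simp [dehom]
  rw [h2, h3] at h1
  rw [← h1]
  ring

end

theorem t_EUL : S_EUL := by
  intro p hp d F _ _ f a b n hd hdp
  have hb : (hc n b).IsHomogeneous n := MvPolynomial.homogeneousComponent_isHomogeneous n b
  have ha : (hc n a).IsHomogeneous n := MvPolynomial.homogeneousComponent_isHomogeneous n a
  have hf : (hc d f).IsHomogeneous d := MvPolynomial.homogeneousComponent_isHomogeneous d f
  have hG : (MvPolynomial.pderiv 0 (hc n b) - MvPolynomial.pderiv 1 (hc n a)).IsHomogeneous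
      (n - 1) := hb.pderiv.sub ha.pderiv
  refine ⟨?_, ?_, ?_⟩
  · unfold gP
    rcases Nat.eq_zero_or_pos n with rfl | hn
    · have h1 : ∀ c : MvPolynomial (Fin 2) F, hc 0 c = MvPolynomial.C (c.coeff 0) := fun c =>
        MvPolynomial.homogeneousComponent_zero c
      rw [h1, h1, MvPolynomial.pderiv_C, MvPolynomial.pderiv_C, sub_zero, map_zero,
        Polynomial.degree_zero]
      exact WithBot.bot_lt_coe _
    · have h1 := degree_dehom hG
      rwa [Nat.sub_add_cancel hn] at h1
  · intro h0
    exact sub_eq_zero.1 (eq_zero_of_dehom hG h0)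
  · obtain ⟨k, hk⟩ := hdp
    have hkd : (p - 1) / d = k := by
      rw [hk]
      exact Nat.mul_div_cancel_left k hd
    have hp1 : 1 < p := hp.out.one_lt
    have hk0 : 0 < k := by
      rcases Nat.eq_zero_or_pos k with rfl | h
      · omega
      · exact h
    rw [hkd]
    obtain ⟨M, hM⟩ : ∃ M, (n + 1) * k = M + 1 := ⟨(n + 1) * k - 1, by
      have : 0 < (n + 1) * k := Nat.mul_pos (Nat.succ_pos n) hk0
      omega⟩
    have hdk : (d : Polynomial F) * (k : Polynomial F) = -1 := by
      have h1 : ((d * k + 1 : ℕ) : Polynomial F) = 0 := by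
        rw [← hk, Nat.sub_add_cancel hp1.le]
        exact CharP.cast_eq_zero (Polynomial F) p
      push_cast at h1
      linear_combination h1
    have hdM : (d : Polynomial F) * ((M + 1 : ℕ) : Polynomial F) = -((n : Polynomial F) + 1) := by
      rw [← hM]
      push_cast
      linear_combination ((n : Polynomial F) + 1) * hdk
    rw [hM, Nat.add_sub_cancel]
    unfold gP jP sP lead
    change ((n + 1 : ℕ) : Polynomial F) * (dehom (hc d f) ^ M * _) =
      (d : Polynomial F) * (dehom (hc d f) ^ (M + 1) * _) + (d : Polynomial F) *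
        Polynomial.derivative (dehom (hc d f) ^ (M + 1) * _)
    rw [map_sub, map_sub, map_mul, map_mul, dehom_pderiv_one, dehom_pderiv_one,
      dehom_pderiv_zero hb, dehom_pderiv_zero hf, Polynomial.derivative_mul,
      Polynomial.derivative_pow, Nat.add_sub_cancel, Polynomial.derivative_add,
      Polynomial.derivative_mul, Polynomial.derivative_X, pow_succ, map_natCast]
    push_cast
    push_cast at hdM
    linear_combination (-(dehom (hc d f) ^ M * Polynomial.derivative (dehom (hc d f)) *
      (dehom (hc n a) + Polynomial.X * dehom (hc n b)))) * hdM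

end Pool.Agent.K3h60.AS
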