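import Pool.Agent.K3h46.AS.Stm

/-! AS project (helper46): brick EXA. -/

set_option autoImplicit false

namespace Pool.Agent.K3h60.AS

open Pool.Agent.K3h46.AS Polynomial

theorem coeff_binom {F : Type} [Field F] (a b : F) (hb : b ≠ 0) (d : ℕ) (hd : 0 < d) (M n : ℕ) :
    ((C a + C b * X ^ d) ^ M : Polynomial F).coeff n =
      if d ∣ n then b ^ M * ((a / b) ^ (M - n / d) * (M.choose (n / d) : F)) else 0 := by
  have h1 : (C a + C b * X ^ d : Polynomial F) = expand F d (C b * (X + C (a / b))) := by
    rw [map_mul, map_add, expand_C, expand_X, expand_C, mul_add, ← C_mul, mul_div_cancel₀ _ hb]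
    ring
  rw [h1, ← map_pow, coeff_expand hd, mul_pow, ← C_pow, coeff_C_mul, coeff_X_add_C_pow]

theorem t_EXA : S_EXA := by
  intro p hp d F _ _ a b hd hdp ha hb m hm G hG h0
  have hpp := hp.out
  have hp1 : 1 < p := hpp.one_lt
  obtain ⟨k, hk⟩ := hdp
  have hkd : (p - 1) / d = k := by
    rw [hk]
    exact Nat.mul_div_cancel_left k hd
  rw [hkd] at h0
  have hk0 : 0 < k := by
    rcases Nat.eq_zero_or_pos k with rfl | h
    · omega
    · exact h
  have hmk : m * k < p := by
    have : m * k < d * k := Nat.mul_lt_mul_of_pos_right hm hk0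
    omega
  ext j
  rw [coeff_zero]
  by_cases hj : m - 1 ≤ j
  · exact coeff_eq_zero_of_degree_lt (hG.trans_le (by exact_mod_cast hj))
  · have hj' : j < m - 1 := not_le.1 hj
    have h1 := congrArg (fun q : Polynomial F => q.coeff (j * p)) h0
    simp only [coeff_iterate_derivative, coeff_zero] at h1
    rw [nsmul_eq_mul] at h1
    have h2 : ((((j * p + (p - 1)).descFactorial (p - 1) : ℕ)) : F) ≠ 0 := by
      rw [Ne, CharP.cast_eq_zero_iff F p]
      rw [Nat.descFactorial_eq_prod_range, hpp.prime.dvd_finsetProd_iff]
      rintro ⟨i, hi, hdiv⟩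
      rw [Finset.mem_range] at hi
      have h3 : j * p + (p - 1) - i = j * p + (p - 1 - i) := by omega
      rw [h3, Nat.dvd_add_right (Dvd.intro_left j rfl)] at hdiv
      have := Nat.le_of_dvd (by omega) hdiv
      omega
    have h3 := (mul_eq_zero.1 h1).resolve_left h2
    rw [coeff_mul, Finset.sum_eq_single ((j + 1) * (p - 1), j)] at h3
    · have h4 : (j + 1) * (p - 1) = d * ((j + 1) * k) := by rw [hk]; ring
      rw [coeff_binom a b hb d hd, if_pos (by rw [h4]; exact Dvd.intro _ rfl), h4,
        Nat.mul_div_cancel_left _ hd] at h3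
      refine (mul_eq_zero.1 h3).resolve_left ?_
      refine mul_ne_zero (pow_ne_zero _ hb) (mul_ne_zero (pow_ne_zero _ (div_ne_zero ha hb)) ?_)
      rw [Ne, CharP.cast_eq_zero_iff F p]
      intro h5
      have h6 : (j + 1) * k ≤ m * k := Nat.mul_le_mul_right k (by omega)
      have h7 := Nat.choose_mul_factorial_mul_factorial h6
      have h8 : p ∣ (m * k).factorial := by
        rw [← h7, mul_assoc]
        exact Dvd.dvd.mul_right h5 _
      rw [hpp.dvd_factorial] at h8
      omega
    · rintro ⟨x, y⟩ hxy hne
      rw [Finset.HasAntidiagonal.mem_antidiagonal] at hxy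
      simp only at hxy
      by_cases hy : m - 1 ≤ y
      · rw [coeff_eq_zero_of_degree_lt (p := G) (n := y) (hG.trans_le (by exact_mod_cast hy)), mul_zero]
      · rw [coeff_binom a b hb d hd, if_neg, zero_mul]
        intro hdx
        apply hne
        have hyj : y = j := by
          -- congruence modulo `d`
          have h4 : (j * p + (p - 1)) % d = j % d := by
            have : j * p + (p - 1) = j + d * (k * j + k) := by
              have h5 : p = d * k + 1 := by omega
              rw [hk]
              conv_lhs => rw [h5]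
              ring
            rw [this, Nat.add_mul_mod_self_left]
          have h5 : (x + y) % d = y % d := by
            obtain ⟨c, rfl⟩ := hdx
            rw [Nat.mul_add_mod]
          rw [hxy, h4, Nat.mod_eq_of_lt (by omega), Nat.mod_eq_of_lt (by omega)] at h5
          exact h5.symm
        subst hyj
        have : x = (y + 1) * (p - 1) := by
          have h6 : (y + 1) * (p - 1) + y = y * p + (p - 1) := by
            obtain ⟨q, rfl⟩ : ∃ q, p = q + 1 := ⟨p - 1, by omega⟩
            simp only [Nat.add_sub_cancel]
            ring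
          omega
        rw [this]
    · intro hn
      exfalso
      apply hn
      rw [Finset.HasAntidiagonal.mem_antidiagonal]
      obtain ⟨q, rfl⟩ : ∃ q, p = q + 1 := ⟨p - 1, by omega⟩
      simp only [Nat.add_sub_cancel]
      ring

end Pool.Agent.K3h60.AS
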