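import Pool.Agent.K3h46.AS.Stm

/-! AS project (helper46): brick EXT. -/

set_option autoImplicit false

open scoped KaehlerDifferential

namespace Pool.Agent.K3h60.AS

open Pool.Agent.K3h46.AS

section

variable {p : ℕ} [Fact p.Prime] {E : Type} [Field E] [CharP E p]

omit [Fact p.Prime] in
theorem der_pow_char (δ : Derivation ℤ E E) (a : E) : δ (a ^ p) = 0 := by
  rw [Derivation.leibniz_pow, nsmul_eq_mul, CharP.cast_eq_zero, zero_mul]

set_option linter.unusedSectionVars false in
theorem der_pow_mul (δ : Derivation ℤ E E) (a z : E) : δ (a ^ p * z) = a ^ p * δ z := by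
  rw [Derivation.leibniz, der_pow_char, smul_zero, add_zero, smul_eq_mul]

set_option linter.unusedSectionVars false in
theorem iter_pow_mul (δ : Derivation ℤ E E) (a z : E) (k : ℕ) :
    (⇑δ)^[k] (a ^ p * z) = a ^ p * (⇑δ)^[k] z := by
  induction k generalizing z with
  | zero => rfl
  | succ k ih => rw [Function.iterate_succ_apply, Function.iterate_succ_apply, der_pow_mul, ih]

theorem iter_log (δ : Derivation ℤ E E) (b : E) (hb : b ≠ 0) (k : ℕ) (s : E) :
    (fun s : E => δ s + (δ b * b⁻¹) * s)^[k] s = b⁻¹ * (⇑δ)^[k] (b * s) := by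
  induction k generalizing s with
  | zero => simp [hb]
  | succ k ih =>
    rw [Function.iterate_succ_apply, Function.iterate_succ_apply, ih]
    congr 2
    rw [Derivation.leibniz, smul_eq_mul, smul_eq_mul]
    field_simp

theorem der_iter_one (δ : Derivation ℤ E E) (k : ℕ) (hk : 0 < k) : (⇑δ)^[k] 1 = 0 := by
  obtain ⟨j, rfl⟩ : ∃ j, k = j + 1 := ⟨k - 1, by omega⟩
  rw [Function.iterate_succ_apply, Derivation.map_one_eq_zero]
  exact iterate_map_zero δ j

theorem log_eq (hJ : S_JAC) (δ : Derivation ℤ E E) (b : E) (hb : b ≠ 0) :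
    (δ b * b⁻¹) ^ p = b⁻¹ * (⇑δ)^[p] b - (⇑δ)^[p - 1] (δ b * b⁻¹) := by
  have h1 := hJ p E δ (δ b * b⁻¹) 1
  rw [iter_log δ b hb, mul_one, mul_one, der_iter_one δ p (Fact.out : p.Prime).pos, zero_add] at h1
  rw [h1]
  ring

theorem log_comm (θ D : Derivation ℤ E E) (h : ∀ z, θ (D z) = D (θ z)) (b : E) :
    θ (D b * b⁻¹) = D (θ b * b⁻¹) := by
  rw [Derivation.leibniz, Derivation.leibniz, Derivation.leibniz_inv, Derivation.leibniz_inv, h]
  simp only [smul_eq_mul]
  ring

end

theorem t_EXT (hJ : S_JAC) : S_EXT := by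
  intro p hp E _ _ θ D hθ hD hc ω hω
  have hpp := hp.out
  have hpos := hpp.pos
  unfold Triv at hω
  induction hω using AddSubgroup.closure_induction with
  | mem ω hω =>
    rcases hω with ⟨h, rfl⟩ | ⟨a, b, hb, rfl⟩
    · refine ⟨0, 0, ?_, ?_, ?_⟩
      · rw [add_zero, Derivation.liftKaehlerDifferential_comp_D, zero_pow hpos.ne',
          ← Function.iterate_succ_apply, Nat.succ_eq_add_one, Nat.sub_add_cancel hpp.one_lt.le, hθ,
          sub_self]
      · rw [add_zero, Derivation.liftKaehlerDifferential_comp_D, zero_pow hpos.ne',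
          ← Function.iterate_succ_apply, Nat.succ_eq_add_one, Nat.sub_add_cancel hpp.one_lt.le, hD,
          neg_zero]
      · rw [add_zero, add_zero, Derivation.liftKaehlerDifferential_comp_D,
          Derivation.liftKaehlerDifferential_comp_D, hc]
    · have h1 : θ.liftKaehlerDifferential (((a ^ p - a) * b⁻¹) • KaehlerDifferential.D ℤ E b) +
          a * (θ b * b⁻¹) = a ^ p * (θ b * b⁻¹) := by
        rw [map_smul, Derivation.liftKaehlerDifferential_comp_D, smul_eq_mul]
        ring
      have h2 : D.liftKaehlerDifferential (((a ^ p - a) * b⁻¹) • KaehlerDifferential.D ℤ E b) +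
          a * (D b * b⁻¹) = a ^ p * (D b * b⁻¹) := by
        rw [map_smul, Derivation.liftKaehlerDifferential_comp_D, smul_eq_mul]
        ring
      refine ⟨a * (θ b * b⁻¹), a * (D b * b⁻¹), ?_, ?_, ?_⟩
      · rw [h1, iter_pow_mul, mul_pow, log_eq hJ θ b hb, hθ]
        ring
      · rw [h2, iter_pow_mul, mul_pow, log_eq hJ D b hb, hD]
        ring
      · rw [h1, h2, der_pow_mul, der_pow_mul, log_comm θ D hc]
  | zero =>
    refine ⟨0, 0, ?_, ?_, ?_⟩
    · rw [map_zero, add_zero, zero_pow hpos.ne', iterate_map_zero, sub_zero]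
    · rw [map_zero, add_zero, zero_pow hpos.ne', iterate_map_zero, neg_zero]
    · rw [map_zero, map_zero, add_zero, map_zero, map_zero]
  | add ω ω' _ _ h h' =>
    obtain ⟨η₁, η₂, h1, h2, h3⟩ := h
    obtain ⟨η₁', η₂', h1', h2', h3'⟩ := h'
    have e1 : θ.liftKaehlerDifferential (ω + ω') + (η₁ + η₁') =
        (θ.liftKaehlerDifferential ω + η₁) + (θ.liftKaehlerDifferential ω' + η₁') := by
      rw [map_add]
      ring
    have e2 : D.liftKaehlerDifferential (ω + ω') + (η₂ + η₂') =
        (D.liftKaehlerDifferential ω + η₂) + (D.liftKaehlerDifferential ω' + η₂') := by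
      rw [map_add]
      ring
    have e3 : ∀ (δ : Derivation ℤ E E) (k : ℕ) (x y : E),
        (⇑δ)^[k] (x + y) = (⇑δ)^[k] x + (⇑δ)^[k] y := fun δ k x y => iterate_map_add δ k x y
    refine ⟨η₁ + η₁', η₂ + η₂', ?_, ?_, ?_⟩
    · rw [add_pow_char, e1, e3, h1, h1']
      ring
    · rw [add_pow_char, e2, e3, h2, h2']
      ring
    · rw [e1, e2, map_add θ (D.liftKaehlerDifferential ω + η₂),
        map_add D (θ.liftKaehlerDifferential ω + η₁), h3, h3']
  | neg ω _ h =>
    obtain ⟨η₁, η₂, h1, h2, h3⟩ := h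
    have hneg : ∀ z : E, (-z) ^ p = -z ^ p := by
      intro z
      have h4 : (-z + z) ^ p = (-z) ^ p + z ^ p := add_pow_char (-z) z p
      rw [neg_add_cancel, zero_pow hpos.ne'] at h4
      linear_combination -h4
    have e1 : θ.liftKaehlerDifferential (-ω) + -η₁ = -(θ.liftKaehlerDifferential ω + η₁) := by
      rw [map_neg]
      ring
    have e2 : D.liftKaehlerDifferential (-ω) + -η₂ = -(D.liftKaehlerDifferential ω + η₂) := by
      rw [map_neg]
      ring
    have e3 : ∀ (δ : Derivation ℤ E E) (k : ℕ) (x : E),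
        (⇑δ)^[k] (-x) = -(⇑δ)^[k] x := fun δ k x => iterate_map_neg δ k x
    refine ⟨-η₁, -η₂, ?_, ?_, ?_⟩
    · rw [hneg, e1, e3, h1]
      ring
    · rw [hneg, e2, e3, h2]
    · rw [e1, e2, map_neg, map_neg, h3]

end Pool.Agent.K3h60.AS
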